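import Mathlib

/-!
# Heilmann-Lieb, analytic half

A family of polynomials with the matching recursion has only real zeros.
-/

set_option autoImplicit false

open Finset Polynomial

namespace Pool.Agent.Helper49.LCU

/-- a real polynomial whose complex zeros are real splits -/
theorem splits_of_real {p : Polynomial ℝ}
    (h : ∀ z : ℂ, (p.map (algebraMap ℝ ℂ)).eval z = 0 → z.im = 0) : p.Splits := by
  refine Splits.of_splits_map (algebraMap ℝ ℂ) (IsAlgClosed.splits _) fun a ha => ?_
  have h1 := h a (Polynomial.isRoot_of_mem_roots ha)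
  refine ⟨a.re, ?_⟩
  apply Complex.ext
  · simp
  · simp [h1]

variable {V : Type*} [DecidableEq V]

/-- value at the square of `w` -/
noncomputable def FF (f : Finset V → Polynomial ℝ) (w : ℂ) (S : Finset V) : ℂ :=
  ((f S).map (algebraMap ℝ ℂ)).eval (w ^ 2)

theorem key {f : Finset V → Polynomial ℝ} {N : V → Finset V → Finset V} {S₀ : Finset V}
    (h0 : f ∅ = 1)
    (hN : ∀ S ⊆ S₀, ∀ v ∈ S, N v S ⊆ S.erase v)
    (hrec : ∀ S ⊆ S₀, ∀ v ∈ S,
      f S = X * (f (S.erase v) + ∑ u ∈ N v S, f ((S.erase v).erase u)))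
    {w : ℂ} (hw : 0 < w.re) : ∀ (n : ℕ) (S : Finset V), S.card = n → S ⊆ S₀ →
      FF f w S ≠ 0 ∧ ∀ v ∈ S, 0 < (FF f w S / (w * FF f w (S.erase v))).re := by
  have hw0 : w ≠ 0 := by
    rintro rfl
    simp at hw
  intro n
  induction n with
  | zero =>
    intro S hS _
    rw [Finset.card_eq_zero] at hS
    subst hS
    refine ⟨?_, fun v hv => absurd hv (Finset.notMem_empty v)⟩
    simp [FF, h0]
  | succ n ih =>
    intro S hS hSS
    have hpos : ∀ v ∈ S, 0 < (FF f w S / (w * FF f w (S.erase v))).re := by
      intro v hv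
      have hc : (S.erase v).card = n := by rw [Finset.card_erase_of_mem hv]; omega
      obtain ⟨i1, i2⟩ := ih (S.erase v) hc ((Finset.erase_subset _ _).trans hSS)
      have e1 : FF f w S = w ^ 2 * (FF f w (S.erase v)
          + ∑ u ∈ N v S, FF f w ((S.erase v).erase u)) := by
        unfold FF
        rw [hrec S hSS v hv, Polynomial.map_mul, Polynomial.map_add, Polynomial.map_X,
          Polynomial.map_sum, Polynomial.eval_mul, Polynomial.eval_add, Polynomial.eval_X,
          Polynomial.eval_finsetSum]
      have e2 : FF f w S / (w * FF f w (S.erase v)) = w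
          + ∑ u ∈ N v S, (FF f w (S.erase v) / (w * FF f w ((S.erase v).erase u)))⁻¹ := by
        rw [e1, ← div_div]
        have : w ^ 2 * (FF f w (S.erase v) + ∑ u ∈ N v S, FF f w ((S.erase v).erase u)) / w
            = w * (FF f w (S.erase v) + ∑ u ∈ N v S, FF f w ((S.erase v).erase u)) := by
          field_simp
        rw [this, mul_add, add_div, mul_div_cancel_right₀ _ i1, Finset.mul_sum, Finset.sum_div]
        congr 1
        refine Finset.sum_congr rfl fun u _ => ?_
        rw [inv_div]
      rw [e2, Complex.add_re, Complex.re_sum]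
      have h3 : 0 ≤ ∑ u ∈ N v S,
          ((FF f w (S.erase v) / (w * FF f w ((S.erase v).erase u)))⁻¹).re := by
        refine Finset.sum_nonneg fun u hu => ?_
        rw [Complex.inv_re]
        exact div_nonneg (i2 u (hN S hSS v hv hu)).le (Complex.normSq_nonneg _)
      linarith
    refine ⟨fun h => ?_, hpos⟩
    have hne : S.Nonempty := by
      rw [← Finset.card_pos]; omega
    obtain ⟨v, hv⟩ := hne
    have := hpos v hv
    rw [h, zero_div, Complex.zero_re] at this
    exact lt_irrefl _ this

/-- every nonreal number is the square of a number with positive real part -/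
theorem exists_sqrt {z : ℂ} (hz : z.im ≠ 0) : ∃ w : ℂ, 0 < w.re ∧ w ^ 2 = z := by
  obtain ⟨w, hw⟩ := IsAlgClosed.exists_pow_nat_eq z (n := 2) (by norm_num)
  have hre : w.re ≠ 0 := by
    intro h
    apply hz
    rw [← hw, pow_two, Complex.mul_im, h]
    ring
  rcases lt_or_gt_of_ne hre with h | h
  · refine ⟨-w, ?_, by rw [neg_sq, hw]⟩
    rw [Complex.neg_re]
    linarith
  · exact ⟨w, h, hw⟩

/-- matching recursion on all subsets of `S₀` implies that all zeros are real -/
theorem splits_of_rec {f : Finset V → Polynomial ℝ} {N : V → Finset V → Finset V}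
    {S₀ : Finset V} (h0 : f ∅ = 1)
    (hN : ∀ S ⊆ S₀, ∀ v ∈ S, N v S ⊆ S.erase v)
    (hrec : ∀ S ⊆ S₀, ∀ v ∈ S,
      f S = X * (f (S.erase v) + ∑ u ∈ N v S, f ((S.erase v).erase u))) :
    (f S₀).Splits := by
  refine splits_of_real fun z hz => ?_
  by_contra him
  obtain ⟨w, hw, rfl⟩ := exists_sqrt him
  exact (key h0 hN hrec hw S₀.card S₀ rfl (Finset.Subset.refl _)).1 hz

end Pool.Agent.Helper49.LCU
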