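import Pool.Agent.Helper5.LCU.Real

/-!
# LCU row RR1

A real polynomial with nonnegative coefficients and only real zeros has a strongly log-concave
sequence `j! f_j` (one linear factor at a time, by row BC).
-/

set_option autoImplicit false

open Finset Polynomial

namespace Pool.Agent.Helper5.LCU

namespace RR49

/-- the sequence of the linear factor `X + s` -/
def lin (s : ℝ) : ℕ → ℝ
  | 0 => s
  | 1 => 1
  | _ + 2 => 0

theorem slc_lin {s : ℝ} (hs : 0 ≤ s) : SLC (lin s) := by
  have h0 : ∀ i, 0 ≤ lin s i := by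
    intro i
    match i with
    | 0 => exact hs
    | 1 => exact zero_le_one
    | _ + 2 => exact le_rfl
  refine ⟨h0, fun i j _ => ?_⟩
  have : lin s (j + 2) = 0 := rfl
  rw [this, mul_zero]
  exact mul_nonneg (h0 _) (h0 _)

/-- the normalised coefficients -/
noncomputable def nc (f : Polynomial ℝ) (j : ℕ) : ℝ := (j.factorial : ℝ) * f.coeff j

theorem nc_mul (s : ℝ) (g : Polynomial ℝ) : nc ((X + C s) * g) = BC (nc g) (lin s) := by
  funext m
  unfold BC
  cases m with
  | zero =>
    simp [nc, lin, mul_comm]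
  | succ m =>
    rw [Finset.sum_range_succ, Finset.sum_range_succ]
    have h1 : ∑ i ∈ range m, ((m + 1).choose i : ℝ) * nc g i * lin s (m + 1 - i) = 0 := by
      refine Finset.sum_eq_zero fun i hi => ?_
      have hi' := Finset.mem_range.1 hi
      obtain ⟨k, hk⟩ : ∃ k, m + 1 - i = k + 2 := ⟨m - 1 - i, by omega⟩
      rw [hk]
      have : lin s (k + 2) = 0 := rfl
      rw [this, mul_zero]
    have e1 : m + 1 - m = 1 := by omega
    rw [h1, zero_add, e1, Nat.sub_self]
    have l1 : lin s 1 = 1 := rfl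
    have l0 : lin s 0 = s := rfl
    rw [l1, l0, Nat.choose_succ_self_right, Nat.choose_self]
    unfold nc
    rw [add_mul, coeff_add, coeff_X_mul, coeff_C_mul, Nat.factorial_succ]
    push_cast
    ring

theorem slc_C {c : ℝ} (hc : 0 ≤ c) : SLC (nc (C c)) := by
  have h0 : ∀ i, 0 ≤ nc (C c) i := by
    intro i
    unfold nc
    rw [coeff_C]
    split_ifs
    · positivity
    · simp
  refine ⟨h0, fun i j _ => ?_⟩
  have : nc (C c) (j + 2) = 0 := by
    unfold nc
    rw [coeff_C, if_neg (by omega), mul_zero]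
  rw [this, mul_zero]
  exact mul_nonneg (h0 _) (h0 _)

theorem slc_prod (hBC : ST_BC) {c : ℝ} (hc : 0 ≤ c) (M : Multiset ℝ) (hM : ∀ r ∈ M, r ≤ 0) :
    SLC (nc (C c * (M.map fun r => X - C r).prod)) := by
  induction M using Multiset.induction_on with
  | empty => simpa using slc_C hc
  | cons r M ih =>
    have h1 := ih fun x hx => hM x (Multiset.mem_cons_of_mem hx)
    have hr : 0 ≤ -r := neg_nonneg.2 (hM r (Multiset.mem_cons_self _ _))
    have e : C c * ((r ::ₘ M).map fun r => X - C r).prod
        = (X + C (-r)) * (C c * (M.map fun r => X - C r).prod) := by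
      rw [Multiset.map_cons, Multiset.prod_cons, C_neg]
      ring
    rw [e, nc_mul]
    exact hBC _ _ h1 (slc_lin hr)

theorem root_nonpos {f : Polynomial ℝ} (hf : f ≠ 0) (h0 : ∀ i, 0 ≤ f.coeff i) {r : ℝ}
    (hr : r ∈ f.roots) : r ≤ 0 := by
  by_contra h
  push Not at h
  have h1 : f.eval r = 0 := (mem_roots hf).1 hr
  rw [eval_eq_sum_range] at h1
  have h2 : 0 < f.coeff f.natDegree * r ^ f.natDegree := by
    have : 0 < f.coeff f.natDegree := by
      refine lt_of_le_of_ne (h0 _) (Ne.symm ?_)
      exact leadingCoeff_ne_zero.2 hf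
    positivity
  have h3 := Finset.single_le_sum (f := fun i => f.coeff i * r ^ i)
    (fun i _ => mul_nonneg (h0 i) (pow_nonneg h.le i))
    (Finset.mem_range.2 (Nat.lt_succ_self f.natDegree))
  rw [h1] at h3
  exact absurd h2 (not_lt.2 h3)

end RR49

open RR49 in
theorem st_RR1 (hBC : ST_BC) : ST_RR1 := by
  intro f hs h0
  change SLC (nc f)
  by_cases hf : f = 0
  · subst hf
    have : nc 0 = nc (C 0) := by rw [C_0]
    rw [this]
    exact slc_C le_rfl
  · rw [hs.eq_prod_roots]
    exact slc_prod hBC (h0 _) _ fun r hr => root_nonpos hf h0 hr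

end Pool.Agent.Helper5.LCU
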